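import Pool.Agent.H.MP_75a6b7_co.A

set_option autoImplicit false

namespace Pool.Agent.Results.MP_75a6b7_co.Sp62

def QCol {V : Type} (G : SimpleGraph V) (c : ℕ) : Prop :=
  ∃ d : ℕ, 1 ≤ d ∧ ∃ P : V → Fin c → Matrix (Fin d) (Fin d) ℂ,
    (∀ v i, (P v i).IsHermitian ∧ P v i * P v i = P v i) ∧ (∀ v, ∑ i, P v i = 1) ∧
    ∀ v w i, G.Adj v w → P v i * P w i = 0

open Pool.Agent.H.MP_75a6b7_co in
theorem result : ∃ (G : SimpleGraph (Fin 63)) (_ : DecidableRel G.Adj),
    G.IsSRGWith 63 30 13 15 ∧ QCol G 8 ∧ 8 < G.chromaticNumber := by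
  let G : SimpleGraph (Fin 63) := ⟨fun x y => adj x y = true, ⟨fun x y h => adj_symm x y ▸ h⟩,
    ⟨fun x h => by simp [adj_irr] at h⟩⟩
  have : DecidableRel G.Adj := fun x y => inferInstanceAs (Decidable (adj x y = true))
  have cn : ∀ x y, Fintype.card (G.commonNeighbors x y) =
      (Finset.univ.filter (fun z => (adj x z && adj y z) = true)).card := fun x y => by
    rw [← Set.toFinset_card]
    congr 1
    ext z
    simp [SimpleGraph.mem_commonNeighbors, G]
  refine ⟨G, this, ⟨by simp, fun x => ?_, fun x y h => ?_, fun x y h h' => ?_⟩, ?_, ?_⟩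
  · rw [← deg x, ← SimpleGraph.card_neighborFinset_eq_degree]
    congr 1
    ext z
    simp [G]
  · rw [cn, common x y h.ne, if_pos h]
  · rw [cn, common x y h, if_neg h']
  · let P : Fin 63 → Fin 8 → Matrix (Fin 8) (Fin 8) ℂ :=
      fun v i => Matrix.of fun a b => (u v i a : ℂ) * u v i b / 8
    have mul : ∀ v w i a b, (P v i * P w i) a b =
        (u v i a : ℂ) * u w i b / 64 * ((∑ c, u v i c * u w i c : ℤ) : ℂ) := by
      intro v w i a b
      simp only [P, Matrix.mul_apply, Matrix.of_apply, Int.cast_sum, Finset.mul_sum, Int.cast_mul]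
      exact Finset.sum_congr rfl (fun c _ => by ring)
    refine ⟨8, by norm_num, P, fun v i => ⟨?_, ?_⟩, fun v => ?_, fun v w i h => ?_⟩
    · ext a b
      simp [P, Matrix.conjTranspose_apply, mul_comm]
    · ext a b
      rw [mul, u_norm]
      simp only [P, Matrix.of_apply]
      push_cast; ring
    · ext a b
      have := congrArg (Int.cast : ℤ → ℂ) (u_sum v a b)
      push_cast at this
      simp only [P, Matrix.sum_apply, Matrix.of_apply, ← Finset.sum_div, this, Matrix.one_apply]
      split_ifs <;> norm_num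
    · ext a b
      rw [mul, u_orth v w h]
      simp
  · by_contra hc
    obtain ⟨C⟩ := (SimpleGraph.chromaticNumber_le_iff_colorable (n := 8)).1 (not_lt.1 hc)
    obtain ⟨k, -, hk⟩ := Finset.exists_lt_card_fiber_of_mul_lt_card_of_maps_to
      (s := Finset.univ) (t := Finset.univ) (f := C) (n := 7) (fun _ _ => Finset.mem_univ _)
      (by simp)
    obtain ⟨s, h1, h2⟩ := Finset.exists_subset_card_eq (Nat.succ_le_of_lt hk)
    refine indep s h2 (fun x hx y hy => ?_)
    by_contra h
    exact C.valid (show G.Adj x y by simpa [G] using h)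
      (((Finset.mem_filter.1 (h1 hx)).2).trans ((Finset.mem_filter.1 (h1 hy)).2).symm)

end Pool.Agent.Results.MP_75a6b7_co.Sp62
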